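import Pool.Agent.Run7.h425.RN.Iface

set_option autoImplicit false

/-!
# Pieces CONT and BND of project RN (helper425): continuity and norms of the cocycle
-/

namespace Pool.Agent.Run7.h91.RN

open MeasureTheory Real Pool.Agent.Run7.h425.RN
open scoped ENNReal

theorem cs_cont : Continuous cs :=
  Complex.continuous_re.comp (fourier (T := (1 : ℝ)) 1).continuous

theorem sn_cont : Continuous sn :=
  Complex.continuous_im.comp (fourier (T := (1 : ℝ)) 1).continuous

theorem g_cont (a : ℝ) : Continuous (g a) := by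
  unfold g
  exact continuous_const.add (continuous_const.mul cs_cont)

theorem J_eq (c : ℝ) : J c = c • ((ContinuousLinearMap.fst ℝ ℝ ℝ).prod 0) +
    (-(ContinuousLinearMap.snd ℝ ℝ ℝ)).prod (ContinuousLinearMap.fst ℝ ℝ ℝ) := by
  refine ContinuousLinearMap.ext fun w => ?_
  simp [J, sub_eq_add_neg]

theorem J_cont : Continuous J := by
  have h : J = fun c : ℝ => c • ((ContinuousLinearMap.fst ℝ ℝ ℝ).prod 0) +
    (-(ContinuousLinearMap.snd ℝ ℝ ℝ)).prod (ContinuousLinearMap.fst ℝ ℝ ℝ) := funext J_eq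
  rw [h]
  exact (continuous_id.smul continuous_const).add continuous_const

theorem t_CONT : S_CONT := by
  intro a n
  induction n with
  | zero => exact ⟨continuous_snd, continuous_const⟩
  | succ n ih =>
    obtain ⟨h1, h2⟩ := ih
    refine ⟨?_, ?_⟩
    · have hs : Continuous (fun q : (ℕ → Tc) × T2 => q.1 n) :=
        (continuous_apply n).comp continuous_fst
      have hx : Continuous (fun q : (ℕ → Tc) × T2 => (orb a q.1 q.2 n).1) :=
        continuous_fst.comp h1
      have hy : Continuous (fun q : (ℕ → Tc) × T2 => (orb a q.1 q.2 n).2) :=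
        continuous_snd.comp h1
      have hc : Continuous (fun q : (ℕ → Tc) × T2 =>
          ((a * sn (orb a q.1 q.2 n).1 : ℝ) : Tc)) :=
        (AddCircle.continuous_mk' (1 : ℝ)).comp (continuous_const.mul (sn_cont.comp hx))
      exact (((((hx.add hx).sub hy).add hc).add hs).prodMk hx)
    · have hx : Continuous (fun q : (ℕ → Tc) × T2 => (orb a q.1 q.2 n).1) :=
        continuous_fst.comp h1
      exact (J_cont.comp ((g_cont a).comp hx)).clm_comp h2

theorem J_apply (c : ℝ) (w : ℝ × ℝ) : J c w = (c * w.1 - w.2, w.1) := by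
  simp [J]

/-- the inverse of `J c` -/
noncomputable def J' (c : ℝ) : L2 :=
  (ContinuousLinearMap.snd ℝ ℝ ℝ).prod
    (c • ContinuousLinearMap.snd ℝ ℝ ℝ - ContinuousLinearMap.fst ℝ ℝ ℝ)

theorem J'_apply (c : ℝ) (w : ℝ × ℝ) : J' c w = (w.2, c * w.2 - w.1) := by
  simp [J']

theorem bd (c : ℝ) (s t m : ℝ) (hs : |s| ≤ m) (ht : |t| ≤ m) : |c * s - t| ≤ (|c| + 1) * m := by
  calc |c * s - t| ≤ |c * s| + |t| := abs_sub _ _
    _ = |c| * |s| + |t| := by rw [abs_mul]
    _ ≤ |c| * m + m := add_le_add (mul_le_mul_of_nonneg_left hs (abs_nonneg c)) ht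
    _ = (|c| + 1) * m := by ring

theorem J_norm (c : ℝ) : ‖J c‖ ≤ |c| + 1 := by
  refine ContinuousLinearMap.opNorm_le_bound _ (by positivity) fun w => ?_
  rw [J_apply, Prod.norm_def]
  have h1 : |w.1| ≤ ‖w‖ := norm_fst_le w
  have h2 : |w.2| ≤ ‖w‖ := norm_snd_le w
  refine max_le ?_ ?_
  · exact bd c w.1 w.2 ‖w‖ h1 h2
  · calc ‖w.1‖ ≤ 1 * ‖w‖ := by rw [one_mul]; exact h1
      _ ≤ (|c| + 1) * ‖w‖ := by
        apply mul_le_mul_of_nonneg_right _ (norm_nonneg w)
        linarith [abs_nonneg c]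

theorem J'_norm (c : ℝ) : ‖J' c‖ ≤ |c| + 1 := by
  refine ContinuousLinearMap.opNorm_le_bound _ (by positivity) fun w => ?_
  rw [J'_apply, Prod.norm_def]
  have h1 : |w.1| ≤ ‖w‖ := norm_fst_le w
  have h2 : |w.2| ≤ ‖w‖ := norm_snd_le w
  refine max_le ?_ ?_
  · calc ‖w.2‖ ≤ 1 * ‖w‖ := by rw [one_mul]; exact h2
      _ ≤ (|c| + 1) * ‖w‖ := by
        apply mul_le_mul_of_nonneg_right _ (norm_nonneg w)
        linarith [abs_nonneg c]
  · exact bd c w.2 w.1 ‖w‖ h2 h1

theorem cs_le (x : Tc) : |cs x| ≤ 1 := by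
  unfold cs
  refine (Complex.abs_re_le_norm _).trans ?_
  rw [fourier_apply]
  exact (Circle.norm_coe _).le

theorem g_le {a : ℝ} (ha : 1 ≤ |a|) (x : Tc) : |g a x| + 1 ≤ 10 * |a| := by
  have h1 : |g a x| ≤ 2 + 2 * π * |a| := by
    unfold g
    calc |2 + 2 * π * a * cs x| ≤ |(2 : ℝ)| + |2 * π * a * cs x| := abs_add_le _ _
      _ = 2 + 2 * π * |a| * |cs x| := by
        rw [abs_mul, abs_mul, abs_mul, abs_of_pos Real.pi_pos, abs_of_pos (two_pos (α := ℝ))]
      _ ≤ 2 + 2 * π * |a| * 1 := by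
        have := mul_le_mul_of_nonneg_left (cs_le x) (show 0 ≤ 2 * π * |a| by positivity)
        linarith
      _ = 2 + 2 * π * |a| := by ring
  have h2 : π < 3.15 := Real.pi_lt_d2
  have h3 : 2 * π * |a| ≤ 6.3 * |a| := by
    apply mul_le_mul_of_nonneg_right _ (abs_nonneg a)
    linarith
  linarith

theorem detA (a : ℝ) (ω : ℕ → Tc) (p : T2) (n : ℕ) :
    (A a ω p n (1, 0)).1 * (A a ω p n (0, 1)).2 - (A a ω p n (0, 1)).1 * (A a ω p n (1, 0)).2
      = 1 := by
  induction n with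
  | zero => simp [A]
  | succ n ih =>
    have h : ∀ v, A a ω p (n + 1) v = J (g a (orb a ω p n).1) (A a ω p n v) := fun v => rfl
    rw [h, h, J_apply, J_apply]
    simp only
    linear_combination ih

theorem t_BND : S_BND := by
  intro a ha
  refine ⟨fun ω p n => ⟨?_, ?_⟩, fun x B => ⟨?_, ?_, ?_⟩⟩
  · induction n with
    | zero =>
      simp only [pow_zero]
      exact ContinuousLinearMap.norm_id_le
    | succ n ih =>
      have h : A a ω p (n + 1) = (J (g a (orb a ω p n).1)).comp (A a ω p n) := rfl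
      rw [h, pow_succ, mul_comm]
      refine (ContinuousLinearMap.opNorm_comp_le _ _).trans ?_
      exact mul_le_mul ((J_norm _).trans (g_le ha _)) ih (norm_nonneg _) (by positivity)
  · have h1 : ∀ v : ℝ × ℝ, ‖v‖ ≤ 1 → ‖A a ω p n v‖ ≤ ‖A a ω p n‖ := fun v hv => by
      refine ((A a ω p n).le_opNorm v).trans ?_
      exact mul_le_of_le_one_right (norm_nonneg _) hv
    have e1 : ‖((1 : ℝ), (0 : ℝ))‖ ≤ 1 := by simp [Prod.norm_def]
    have e2 : ‖((0 : ℝ), (1 : ℝ))‖ ≤ 1 := by simp [Prod.norm_def]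
    have m1 := h1 _ e1
    have m2 := h1 _ e2
    have a1 : |(A a ω p n (1, 0)).1| ≤ ‖A a ω p n‖ := (norm_fst_le _).trans m1
    have a2 : |(A a ω p n (1, 0)).2| ≤ ‖A a ω p n‖ := (norm_snd_le _).trans m1
    have b1 : |(A a ω p n (0, 1)).1| ≤ ‖A a ω p n‖ := (norm_fst_le _).trans m2
    have b2 : |(A a ω p n (0, 1)).2| ≤ ‖A a ω p n‖ := (norm_snd_le _).trans m2
    have hd := detA a ω p n
    have hN := norm_nonneg (A a ω p n)
    have h3 : (A a ω p n (1, 0)).1 * (A a ω p n (0, 1)).2 ≤ ‖A a ω p n‖ * ‖A a ω p n‖ := by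
      refine (le_abs_self _).trans ?_
      rw [abs_mul]
      exact mul_le_mul a1 b2 (abs_nonneg _) hN
    have h4 : -((A a ω p n (0, 1)).1 * (A a ω p n (1, 0)).2) ≤ ‖A a ω p n‖ * ‖A a ω p n‖ := by
      refine (neg_le_abs _).trans ?_
      rw [abs_mul]
      exact mul_le_mul b1 a2 (abs_nonneg _) hN
    nlinarith
  · exact (J_norm _).trans (g_le ha x)
  · refine ContinuousLinearMap.opNorm_le_bound _ (by positivity) fun v => ?_
    have h : B v = J' (g a x) ((J (g a x)).comp B v) := by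
      rw [ContinuousLinearMap.comp_apply, J_apply, J'_apply]
      ext
      · simp
      · simp
    calc ‖B v‖ = ‖J' (g a x) ((J (g a x)).comp B v)‖ := by rw [← h]
      _ ≤ ‖J' (g a x)‖ * ‖(J (g a x)).comp B v‖ := ContinuousLinearMap.le_opNorm _ _
      _ ≤ (10 * |a|) * (‖(J (g a x)).comp B‖ * ‖v‖) :=
        mul_le_mul ((J'_norm _).trans (g_le ha x)) (ContinuousLinearMap.le_opNorm _ _)
          (norm_nonneg _) (by positivity)
      _ = 10 * |a| * ‖(J (g a x)).comp B‖ * ‖v‖ := by ring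
  · have h : B = (B.comp (J (g a x))).comp (J' (g a x)) := by
      refine ContinuousLinearMap.ext fun v => ?_
      rw [ContinuousLinearMap.comp_apply, ContinuousLinearMap.comp_apply, J'_apply, J_apply]
      congr 1
      ext
      · simp
      · simp
    calc ‖B‖ = ‖(B.comp (J (g a x))).comp (J' (g a x))‖ := by rw [← h]
      _ ≤ ‖B.comp (J (g a x))‖ * ‖J' (g a x)‖ := ContinuousLinearMap.opNorm_comp_le _ _
      _ ≤ ‖B.comp (J (g a x))‖ * (10 * |a|) :=
        mul_le_mul_of_nonneg_left ((J'_norm _).trans (g_le ha x)) (norm_nonneg _)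
      _ = 10 * |a| * ‖B.comp (J (g a x))‖ := by ring

end Pool.Agent.Run7.h91.RN
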