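import Pool.Agent.Run7.h425.RN.Iface

set_option autoImplicit false

/-!
# Piece OPT of project RN (helper425): optimisation
-/

namespace Pool.Agent.Run7.h91.RN

open MeasureTheory Real Pool.Agent.Run7.h425.RN

theorem log_num (x D : ℝ) (hx : 1 ≤ x) (hD : 1 ≤ D) :
    8 * log (2048 * x ^ 3 * D ^ 4) ≤ 80 * (1 + log x + log D) := by
  have h1 : log (2048 * x ^ 3 * D ^ 4) = log 2048 + 3 * log x + 4 * log D := by
    rw [log_mul (by positivity) (by positivity), log_mul (by positivity) (by positivity),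
      log_pow, log_pow]
    norm_num
  have h2 : log 2048 = 11 * log 2 := by
    rw [show (2048 : ℝ) = 2 ^ 11 by norm_num, log_pow]
    norm_num
  have h3 := Real.log_two_lt_d9
  have h4 := log_nonneg hx
  have h5 := log_nonneg hD
  rw [h1, h2]
  linarith

theorem log_pi_le (x : ℝ) (hx : 1 ≤ x) : 0 ≤ log (π * x) ∧ log (π * x) ≤ 2 * (1 + log x) := by
  have h4 := log_nonneg hx
  have h0 : log π ≤ 2 := by
    have := Real.log_le_sub_one_of_pos Real.pi_pos
    have h2 : π < 3.15 := Real.pi_lt_d2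
    have h5 : log π ≤ log 4 := log_le_log Real.pi_pos (by linarith)
    have h6 : log 4 = 2 * log 2 := by
      rw [show (4 : ℝ) = 2 ^ 2 by norm_num, log_pow]
      norm_num
    have h3 := Real.log_two_lt_d9
    linarith
  have h1 : log (π * x) = log π + log x := log_mul Real.pi_pos.ne' (by linarith)
  have h7 : 0 ≤ log π := log_nonneg (by linarith [Real.pi_gt_three])
  rw [h1]
  constructor <;> linarith

theorem t_OPT : S_OPT := by
  intro C₀ hC₀
  refine ⟨88 + 9 * C₀, by positivity, ?_⟩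
  intro x D v w hx hD hle hsup hlow
  obtain ⟨l, hl⟩ : ∃ l, l = 1 + log x := ⟨_, rfl⟩
  obtain ⟨d, hd⟩ : ∃ d, d = log D := ⟨_, rfl⟩
  have hb := log_num x D hx hD
  obtain ⟨hM0, hM1⟩ := log_pi_le x hx
  rw [← hl, ← hd] at hle hb ⊢
  rw [← hl] at hM1
  have hl1 : 1 ≤ l := by have := log_nonneg hx; linarith
  have hd0 : 0 ≤ d := by rw [hd]; exact log_nonneg hD
  have hx0 : 0 < x := by linarith
  have hld : 0 < l + d := by linarith
  have hR : 0 < l ^ 2 * (l + d) / x ^ 2 := by positivity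
  obtain ⟨Q, hQ⟩ : ∃ Q, Q = (l ^ 2 * (l + d) / x ^ 2) ^ (1 / 3 : ℝ) := ⟨_, rfl⟩
  have hQ0 : 0 < Q := by rw [hQ]; exact rpow_pos_of_pos hR _
  have hQ1 : Q ≤ 1 := by
    rw [hQ]
    exact rpow_le_one hR.le (by rw [div_le_one (by positivity)]; exact hle) (by norm_num)
  have hQ3 : Q ^ 3 = l ^ 2 * (l + d) / x ^ 2 := by
    rw [hQ, ← rpow_natCast, ← rpow_mul hR.le]
    norm_num
  rw [← hQ]
  obtain ⟨N, hN⟩ : ∃ N, N = ⌈(l + d) / Q⌉₊ := ⟨_, rfl⟩
  have hq0 : 0 ≤ (l + d) / Q := by positivity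
  have hN1 : (l + d) / Q ≤ N := by rw [hN]; exact Nat.le_ceil _
  have h1 : 1 ≤ (l + d) / Q := by rw [le_div_iff₀ hQ0]; linarith
  have hNR : (1 : ℝ) ≤ N := h1.trans hN1
  have hN0 : 1 ≤ N := by exact_mod_cast hNR
  have hN2 : (N : ℝ) ≤ 2 * ((l + d) / Q) := by
    have := Nat.ceil_lt_add_one hq0
    rw [← hN] at this
    linarith
  have hK : 4 ≤ 4 / Q := by rw [le_div_iff₀ hQ0]; linarith
  have h2 := hsup N hN0
  have h3 := hlow (4 / Q) N hK hN0
  rw [← hl] at h3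
  have e1 : 1 / (4 / Q) ≤ Q := by
    rw [one_div_div]
    linarith
  have e2 : (N : ℝ) * (4 / Q) * l ^ 2 / x ^ 2 ≤ 8 * Q := by
    have h4 : (N : ℝ) * (4 / Q) * l ^ 2 / x ^ 2 ≤
        2 * ((l + d) / Q) * (4 / Q) * l ^ 2 / x ^ 2 := by
      gcongr
    have h5 : 2 * ((l + d) / Q) * (4 / Q) * l ^ 2 / x ^ 2 =
        8 * (l ^ 2 * (l + d) / x ^ 2) / Q ^ 2 := by
      field_simp
      ring
    rw [h5, ← hQ3] at h4
    have h6 : 8 * Q ^ 3 / Q ^ 2 = 8 * Q := by field_simp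
    rw [h6] at h4
    exact h4
  have hxp : 0 ≤ x ^ (-(1 / 4) : ℝ) := (rpow_pos_of_pos hx0 _).le
  obtain ⟨X, hX⟩ : ∃ X, X = x ^ (-(1 / 4) : ℝ) := ⟨_, rfl⟩
  rw [← hX] at h3 hxp ⊢
  have e3 : l + d ≤ Q * N := by
    rw [div_le_iff₀ hQ0] at hN1
    linarith
  -- lower bound of `w N`
  have h7 : N * (log (π * x) - C₀ * (9 * Q + X)) ≤ w N := by
    refine le_trans ?_ h3
    apply mul_le_mul_of_nonneg_left _ (Nat.cast_nonneg N)
    have : C₀ * (1 / (4 / Q) + X + (N : ℝ) * (4 / Q) * l ^ 2 / x ^ 2) ≤ C₀ * (9 * Q + X) := by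
      apply mul_le_mul_of_nonneg_left _ hC₀.le
      linarith
    linarith
  -- combine
  by_contra hcon
  rw [not_le] at hcon
  have h8 : (N + 4 : ℝ) * v < (N + 4) * (log (π * x) - (88 + 9 * C₀) * (X + Q)) :=
    mul_lt_mul_of_pos_left hcon (by positivity)
  have h9 : 0 ≤ C₀ * X := by positivity
  have h10 : 0 ≤ C₀ * Q := by positivity
  have h11 : (0 : ℝ) ≤ N * X := by positivity
  have h12 : (0 : ℝ) ≤ N * (C₀ * X) := by positivity
  have h13 : (0 : ℝ) ≤ Q * N := by positivity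
  nlinarith

end Pool.Agent.Run7.h91.RN
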